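import Mathlib

namespace Pool.Agent.Results.MP_1a49c3_al.SeventhClosure

open Matrix

variable (K : Type*) [Field K]

/-- Noncommutative polynomials all of whose monomials have total degree `d`. -/
def IsHomog {m : ℕ} (d : ℕ) (p : FreeAlgebra K (Fin m)) : Prop :=
  p ∈ Submodule.span K
    {w | ∃ l : List (Fin m), l.length = d ∧ w = (l.map (FreeAlgebra.ι K)).prod}

/-- The image of a noncommutative polynomial on `3 × 3` matrices. -/
def image {m : ℕ} (p : FreeAlgebra K (Fin m)) : Set (Matrix (Fin 3) (Fin 3) K) :=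
  Set.range fun A : Fin m → Matrix (Fin 3) (Fin 3) K => FreeAlgebra.lift K A p

/-- Zariski closure in `M₃(K) = K⁹`. -/
def zClosure (S : Set (Matrix (Fin 3) (Fin 3) K)) : Set (Matrix (Fin 3) (Fin 3) K) :=
  {B | ∀ q : MvPolynomial (Fin 3 × Fin 3) K,
    (∀ A ∈ S, MvPolynomial.eval (fun ij => A ij.1 ij.2) q = 0) →
      MvPolynomial.eval (fun ij => B ij.1 ij.2) q = 0}

/-- Scalar matrices. -/
def scalars : Set (Matrix (Fin 3) (Fin 3) K) := {A | ∃ c : K, A = c • (1 : Matrix (Fin 3) (Fin 3) K)}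

/-- Trace-zero matrices. -/
def sl3 : Set (Matrix (Fin 3) (Fin 3) K) := {A | A.trace = 0}

/-- The `3`-scalar matrices. -/
def V3 : Set (Matrix (Fin 3) (Fin 3) K) :=
  {A | ∃ c : K, A.charpoly = Polynomial.X ^ 3 - Polynomial.C c}

/-- The set `V₃ + K`. -/
def V3plusK : Set (Matrix (Fin 3) (Fin 3) K) :=
  {B | ∃ A ∈ V3 K, ∃ c : K, B = A + c • (1 : Matrix (Fin 3) (Fin 3) K)}

variable {K}

def e1 (A : Matrix (Fin 3) (Fin 3) K) : K := A 0 0 + A 1 1 + A 2 2
def e2 (A : Matrix (Fin 3) (Fin 3) K) : K :=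
  A 0 0 * A 1 1 - A 0 1 * A 1 0 + (A 0 0 * A 2 2 - A 0 2 * A 2 0) + (A 1 1 * A 2 2 - A 1 2 * A 2 1)
def e3 (A : Matrix (Fin 3) (Fin 3) K) : K :=
  A 0 0 * A 1 1 * A 2 2 - A 0 0 * A 1 2 * A 2 1 - A 0 1 * A 1 0 * A 2 2
    + A 0 1 * A 1 2 * A 2 0 + A 0 2 * A 1 0 * A 2 1 - A 0 2 * A 1 1 * A 2 0

open MvPolynomial in
noncomputable def q1 : MvPolynomial (Fin 3 × Fin 3) K := X (0, 0) + X (1, 1) + X (2, 2)
open MvPolynomial in
noncomputable def q2 : MvPolynomial (Fin 3 × Fin 3) K :=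
  X (0, 0) * X (1, 1) - X (0, 1) * X (1, 0) + (X (0, 0) * X (2, 2) - X (0, 2) * X (2, 0))
    + (X (1, 1) * X (2, 2) - X (1, 2) * X (2, 1))
open MvPolynomial in
noncomputable def q3 : MvPolynomial (Fin 3 × Fin 3) K :=
  X (0, 0) * X (1, 1) * X (2, 2) - X (0, 0) * X (1, 2) * X (2, 1) - X (0, 1) * X (1, 0) * X (2, 2)
    + X (0, 1) * X (1, 2) * X (2, 0) + X (0, 2) * X (1, 0) * X (2, 1)
    - X (0, 2) * X (1, 1) * X (2, 0)

lemma ev1 (A : Matrix (Fin 3) (Fin 3) K) :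
    MvPolynomial.eval (fun ij : Fin 3 × Fin 3 => A ij.1 ij.2) q1 = e1 A := by simp [q1, e1]
lemma ev2 (A : Matrix (Fin 3) (Fin 3) K) :
    MvPolynomial.eval (fun ij : Fin 3 × Fin 3 => A ij.1 ij.2) q2 = e2 A := by simp [q2, e2]
lemma ev3 (A : Matrix (Fin 3) (Fin 3) K) :
    MvPolynomial.eval (fun ij : Fin 3 × Fin 3 => A ij.1 ij.2) q3 = e3 A := by simp [q3, e3]

lemma subset_zClosure (S : Set (Matrix (Fin 3) (Fin 3) K)) : S ⊆ zClosure K S :=
  fun A hA _ hq => hq A hA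

lemma charpoly_eq (A : Matrix (Fin 3) (Fin 3) K) :
    A.charpoly = Polynomial.X ^ 3 - Polynomial.C (e1 A) * Polynomial.X ^ 2
      + Polynomial.C (e2 A) * Polynomial.X - Polynomial.C (e3 A) := by
  rw [Matrix.charpoly, det_fin_three]
  simp [charmatrix_apply, e1, e2, e3, diagonal_apply]
  ring

lemma V3_e (A : Matrix (Fin 3) (Fin 3) K) (h : A ∈ V3 K) : e1 A = 0 ∧ e2 A = 0 := by
  obtain ⟨c, hc⟩ := h
  rw [charpoly_eq] at hc
  have h2 := congrArg (fun p => Polynomial.coeff p 2) hc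
  have h1 := congrArg (fun p => Polynomial.coeff p 1) hc
  simp [Polynomial.coeff_X, Polynomial.coeff_C, Polynomial.coeff_X_pow] at h1 h2
  exact ⟨h2, h1⟩

lemma V3plusK_closure (B : Matrix (Fin 3) (Fin 3) K) (h : B ∈ zClosure K (V3plusK K)) :
    e1 B ^ 2 = 3 * e2 B := by
  have := h (q1 ^ 2 - 3 * q2) (by
    rintro _ ⟨A, hA, c, rfl⟩
    obtain ⟨h1, h2⟩ := V3_e A hA
    rw [map_sub, map_pow, map_mul, ev1, ev2, map_ofNat]
    simp only [e1, e2] at h1 h2 ⊢
    simp [Matrix.one_apply]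
    linear_combination (A 0 0 + A 1 1 + A 2 2) * h1 - 3 * h2)
  rw [map_sub, map_pow, map_mul, ev1, ev2, map_ofNat] at this
  exact sub_eq_zero.mp this

noncomputable def comm : FreeAlgebra K (Fin 2) :=
  FreeAlgebra.ι K 0 * FreeAlgebra.ι K 1 - FreeAlgebra.ι K 1 * FreeAlgebra.ι K 0

lemma homog_mul {m a b : ℕ} {p q : FreeAlgebra K (Fin m)} (hp : IsHomog K a p)
    (hq : IsHomog K b q) : IsHomog K (a + b) (p * q) := by
  have := Submodule.mul_mem_mul hp hq
  rw [Submodule.span_mul_span] at this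
  refine Submodule.span_mono ?_ this
  rintro _ ⟨_, ⟨l, hl, rfl⟩, _, ⟨l', hl', rfl⟩, rfl⟩
  exact ⟨l ++ l', by simp [hl, hl'], by simp⟩

lemma homog_comm : IsHomog K 2 (comm (K := K)) := by
  refine Submodule.sub_mem _ (Submodule.subset_span ⟨[0, 1], rfl, by simp⟩)
    (Submodule.subset_span ⟨[1, 0], rfl, by simp⟩)

lemma lift_comm (A : Fin 2 → Matrix (Fin 3) (Fin 3) K) :
    FreeAlgebra.lift K A comm = A 0 * A 1 - A 1 * A 0 := by simp [comm]

lemma e1_comm (A B : Matrix (Fin 3) (Fin 3) K) : e1 (A * B - B * A) = 0 := by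
  simp [e1, Matrix.mul_apply, Fin.sum_univ_three]
  ring

lemma sq_rel (A : Matrix (Fin 3) (Fin 3) K) (h : e1 A = 0) : e1 (A * A) ^ 2 = 4 * e2 (A * A) := by
  have h' : A 2 2 = - A 0 0 - A 1 1 := by simp only [e1] at h; linear_combination h
  simp only [e1, e2, Matrix.mul_apply, Fin.sum_univ_three, h']
  ring

lemma cube_rel (A : Matrix (Fin 3) (Fin 3) K) (h : e1 A = 0) :
    e1 (A * A * A) ^ 3 = 27 * e3 (A * A * A) := by
  have h' : A 2 2 = - A 0 0 - A 1 1 := by simp only [e1] at h; linear_combination h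
  have h1 : e1 (A * A * A) = 3 * e3 A := by
    simp only [e1, e3, Matrix.mul_apply, Fin.sum_univ_three, h']
    ring
  have h2 : ∀ B : Matrix (Fin 3) (Fin 3) K, e3 B = B.det := fun B => by
    rw [det_fin_three, e3]
  rw [h1, h2 (A * A * A), det_mul, det_mul, ← h2]
  ring

def E12 : Matrix (Fin 3) (Fin 3) K := !![0, 1, 0; 0, 0, 0; 0, 0, 0]
def E21 : Matrix (Fin 3) (Fin 3) K := !![0, 0, 0; 1, 0, 0; 0, 0, 0]
def D : Matrix (Fin 3) (Fin 3) K := !![1, 0, 0; 0, -1, 0; 0, 0, 0]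

lemma lift_D : FreeAlgebra.lift K ![E12, E21] (comm (K := K)) = D (K := K) := by
  rw [lift_comm]
  ext i j
  fin_cases i <;> fin_cases j <;> simp [E12, E21, D, Matrix.mul_apply, Fin.sum_univ_three]

lemma finish (Z : Set (Matrix (Fin 3) (Fin 3) K)) (B : Matrix (Fin 3) (Fin 3) K) (hB : B ∈ Z)
    (h00 : B 0 0 = 1) (h22 : B 2 2 = 0) (he2 : e2 B ≠ 0) (hr : e1 B ^ 2 ≠ 3 * e2 B)
    (T : Matrix (Fin 3) (Fin 3) K) (hT : T.trace = 0) (hTZ : T ∉ Z) :
    Z ≠ {0} ∧ Z ≠ scalars K ∧ Z ≠ V3 K ∧ Z ≠ sl3 K ∧ Z ≠ zClosure K (V3plusK K) ∧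
      Z ≠ Set.univ := by
  refine ⟨?_, ?_, ?_, ?_, ?_, ?_⟩ <;> rintro rfl
  · rw [Set.mem_singleton_iff] at hB
    simp [hB] at h00
  · obtain ⟨c, rfl⟩ := hB
    simp at h00 h22
    exact one_ne_zero (h00.symm.trans h22)
  · exact he2 (V3_e B hB).2
  · exact hTZ hT
  · exact hr (V3plusK_closure B hB)
  · exact hTZ trivial

universe u

theorem result (K : Type u) [Field K] [IsAlgClosed K] :
    ∃ (m d : ℕ) (p : FreeAlgebra K (Fin m)), 1 ≤ d ∧ IsHomog K d p ∧
      zClosure K (image K p) ≠ {0} ∧ zClosure K (image K p) ≠ scalars K ∧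
      zClosure K (image K p) ≠ V3 K ∧ zClosure K (image K p) ≠ sl3 K ∧
      zClosure K (image K p) ≠ zClosure K (V3plusK K) ∧ zClosure K (image K p) ≠ Set.univ := by
  by_cases h2 : (2 : K) = 0
  · have h3 : (3 : K) ≠ 0 := by
      intro h
      have : (1 : K) = 0 := by linear_combination h - h2
      exact one_ne_zero this
    refine ⟨2, 2 + 2 + 2, comm * comm * comm, by norm_num,
      homog_mul (homog_mul homog_comm homog_comm) homog_comm, ?_⟩
    have hD : (D * D * D : Matrix (Fin 3) (Fin 3) K) = D := by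
      ext i j
      fin_cases i <;> fin_cases j <;> simp [D, Matrix.mul_apply, Fin.sum_univ_three]
    refine finish _ D (subset_zClosure _ ⟨![E12, E21], ?_⟩) (by simp [D]) (by simp [D])
      (by simp [D, e2]) (by simpa [D, e1, e2] using h3) !![0, 1, 0; 0, 0, 1; 1, 0, 0]
      (by simp [Matrix.trace_fin_three]) ?_
    · simp only [map_mul, lift_D, hD]
    · intro h
      have := h (q1 ^ 3 - 27 * q3) (by
        rintro _ ⟨A, rfl⟩
        rw [map_sub, map_pow, map_mul, ev1, ev3, map_ofNat]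
        simp only [map_mul, lift_comm]
        exact sub_eq_zero.mpr (cube_rel _ (e1_comm _ _)))
      rw [map_sub, map_pow, map_mul, ev1, ev3, map_ofNat] at this
      simp [e1, e3] at this
      apply h3
      have h27 : (3 : K) ^ 3 = 0 := by linear_combination this
      exact pow_eq_zero_iff (by norm_num) |>.mp h27
  · refine ⟨2, 2 + 2, comm * comm, by norm_num, homog_mul homog_comm homog_comm, ?_⟩
    have hD : (D * D : Matrix (Fin 3) (Fin 3) K) = !![1, 0, 0; 0, 1, 0; 0, 0, 0] := by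
      ext i j
      fin_cases i <;> fin_cases j <;> simp [D, Matrix.mul_apply, Fin.sum_univ_three]
    refine finish _ !![1, 0, 0; 0, 1, 0; 0, 0, 0] (subset_zClosure _ ⟨![E12, E21], ?_⟩) (by simp)
      (by simp) (by simp [e2]) ?_ D (by simp [D, Matrix.trace_fin_three]) ?_
    · simp only [map_mul, lift_D, hD]
    · simp [e1, e2]
      intro h
      have : (1 : K) = 0 := by linear_combination h
      exact one_ne_zero this
    · intro h
      have := h (q1 ^ 2 - 4 * q2) (by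
        rintro _ ⟨A, rfl⟩
        rw [map_sub, map_pow, map_mul, ev1, ev2, map_ofNat]
        simp only [map_mul, lift_comm]
        exact sub_eq_zero.mpr (sq_rel _ (e1_comm _ _)))
      rw [map_sub, map_pow, map_mul, ev1, ev2, map_ofNat] at this
      simp [e1, e2, D] at this
      apply h2
      have h4 : (2 : K) ^ 2 = 0 := by linear_combination this
      exact pow_eq_zero_iff (by norm_num) |>.mp h4

end Pool.Agent.Results.MP_1a49c3_al.SeventhClosure
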